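import Pool.Agent.Q147.MM.Stm

/-!
# Project MM, lemma A1
-/

set_option autoImplicit false

namespace Pool.Agent.Q166.MM

open Finset Filter Topology

open Pool.Agent.Q147.MM

/-- one step of the comparison of the sum with the integral -/
lemma step (κ : ℝ) (hκ0 : 0 < κ) (hκ1 : κ < 1) (i I : ℕ) (hi : i < I) (y : ℝ)
    (hy : Real.exp I ≤ y) :
    (Real.log (y + 1)) ^ ((i : ℝ) + 1 - κ) / ((i : ℝ) + 1 - κ) -
      (Real.log y) ^ ((i : ℝ) + 1 - κ) / ((i : ℝ) + 1 - κ) ≤ (Real.log y) ^ ((i : ℝ) - κ) / y := by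
  have hI : (1 : ℝ) ≤ I := by exact_mod_cast (by omega : 1 ≤ I)
  have hiI : (i : ℝ) + 1 ≤ I := by exact_mod_cast hi
  have hi0 : (0 : ℝ) ≤ i := Nat.cast_nonneg i
  have hy0 : 0 < y := (Real.exp_pos _).trans_le hy
  have hl : (I : ℝ) ≤ Real.log y := (Real.le_log_iff_exp_le hy0).2 hy
  have hl0 : 0 < Real.log y := by linarith
  have hy1 : 1 < y := by
    by_contra h
    have := Real.log_nonpos hy0.le (not_lt.1 h)
    linarith
  set s : ℝ := (i : ℝ) + 1 - κ with hs
  have hs0 : 0 < s := by rw [hs]; linarith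
  obtain ⟨ξ, ⟨hξ1, hξ2⟩, hξ⟩ := exists_hasDerivAt_eq_slope
    (fun t => (Real.log t) ^ s / s) (fun t => (Real.log t) ^ (s - 1) / t)
    (show y < y + 1 by linarith)
    (by
      intro t ht
      have ht1 : 1 < t := hy1.trans_le ht.1
      have : HasDerivAt (fun t => (Real.log t) ^ s / s) (t⁻¹ * s * (Real.log t) ^ (s - 1) / s) t :=
        ((Real.hasDerivAt_log (by linarith : t ≠ 0)).rpow_const
          (Or.inl (Real.log_pos ht1).ne')).div_const s
      exact this.continuousAt.continuousWithinAt)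
    (by
      intro t ht
      have ht1 : 1 < t := hy1.trans ht.1
      have : HasDerivAt (fun t => (Real.log t) ^ s / s) (t⁻¹ * s * (Real.log t) ^ (s - 1) / s) t :=
        ((Real.hasDerivAt_log (by linarith : t ≠ 0)).rpow_const
          (Or.inl (Real.log_pos ht1).ne')).div_const s
      convert this using 1
      field_simp)
  simp only [add_sub_cancel_left, div_one] at hξ
  rw [← hξ]
  have hs1 : s - 1 = (i : ℝ) - κ := by rw [hs]; ring
  rw [hs1]
  have hξ0 : 0 < ξ := hy0.trans hξ1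
  set u : ℝ := Real.log ξ - Real.log y with hu
  have hu0 : 0 ≤ u := by
    have := Real.log_le_log hy0 hξ1.le
    linarith
  have heu : Real.exp u = ξ / y := by
    rw [hu, Real.exp_sub, Real.exp_log hξ0, Real.exp_log hy0]
  have hlξ : 0 < Real.log ξ := by linarith
  -- the ratio of the logarithms
  have hrat : (Real.log ξ / Real.log y) ^ ((i : ℝ) - κ) ≤ ξ / y := by
    rw [← heu]
    have hr1 : 1 ≤ Real.log ξ / Real.log y := by
      rw [le_div_iff₀ hl0]
      linarith
    rcases le_or_gt ((i : ℝ) - κ) 0 with h | h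
    · exact (Real.rpow_le_one_of_one_le_of_nonpos hr1 h).trans (Real.one_le_exp hu0)
    · have e1 : Real.log ξ / Real.log y ≤ Real.exp (u / Real.log y) := by
        have e2 := Real.add_one_le_exp (u / Real.log y)
        have e3 : Real.log ξ / Real.log y = u / Real.log y + 1 := by
          rw [hu]
          field_simp
          ring
        rw [e3]
        exact e2
      calc (Real.log ξ / Real.log y) ^ ((i : ℝ) - κ)
          ≤ (Real.exp (u / Real.log y)) ^ ((i : ℝ) - κ) :=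
            Real.rpow_le_rpow (by positivity) e1 h.le
        _ = Real.exp (u / Real.log y * ((i : ℝ) - κ)) := by rw [← Real.exp_mul]
        _ ≤ Real.exp u := by
          apply Real.exp_le_exp.2
          rw [div_mul_eq_mul_div, div_le_iff₀ hl0]
          apply mul_le_mul_of_nonneg_left _ hu0
          linarith
  rw [Real.div_rpow hlξ.le hl0.le, div_le_div_iff₀ (by positivity) hy0] at hrat
  rw [div_le_div_iff₀ hξ0 hy0]
  linarith

/-- the geometric sum -/
lemma geo (L l : ℝ) (hL : 0 < L) (hl : 0 ≤ l) (hlL : l < L) (I : ℕ) :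
    ∑ i ∈ range I, l ^ i / L ^ (i + 1) ≤ 1 / (L - l) := by
  have h : (∑ i ∈ range I, l ^ i / L ^ (i + 1)) * (L - l) = 1 - (l / L) ^ I := by
    induction I with
    | zero => simp
    | succ n ih =>
      rw [Finset.sum_range_succ, add_mul, ih]
      rw [div_pow, div_pow]
      field_simp
      ring
  rw [le_div_iff₀ (by linarith), h]
  have : 0 ≤ (l / L) ^ I := by positivity
  linarith

/-- telescoping -/
lemma tele (h : ℕ → ℝ) (a b : ℕ) (hab : a ≤ b) :
    ∑ y ∈ Ioc a b, (h (y + 1) - h y) = h (b + 1) - h (a + 1) := by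
  induction b, hab using Nat.le_induction with
  | base => simp
  | succ n hn ih =>
    rw [Finset.sum_Ioc_succ_top (by omega), ih]
    ring

lemma tendsto_logN : Tendsto (fun N : ℕ => Real.log (N : ℝ)) atTop atTop :=
  Real.tendsto_log_atTop.comp tendsto_natCast_atTop_atTop

lemma tendsto_loglog : Tendsto (fun N : ℕ => Real.log (Real.log (N : ℝ)) / Real.log (N : ℝ))
    atTop (𝓝 0) := by
  have h : Tendsto (fun x : ℝ => Real.log x / x) atTop (𝓝 0) := by
    have := Real.isLittleO_log_id_atTop.tendsto_div_nhds_zero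
    exact this
  exact h.comp tendsto_logN

theorem t_A1 : S_A1 := by
  intro κ hκ0 hκ1 I y1 ε hε0 hε1
  -- `y2`
  obtain ⟨y2, hy21, hy2e⟩ : ∃ y2 : ℕ, y1 ≤ y2 ∧ Real.exp I ≤ y2 :=
    ⟨max y1 ⌈Real.exp I⌉₊, le_max_left _ _,
      (Nat.le_ceil _).trans (by exact_mod_cast le_max_right _ _)⟩
  set P : ℝ := ∑ i ∈ range I, (1 / 2 : ℝ) ^ ((i : ℝ) + 1 - κ) / ((i : ℝ) + 1 - κ) with hP
  let q : ℕ → ℝ := fun N => ∑ i ∈ range I,
    ((1 / 2 - Real.log (Real.log (N : ℝ)) / Real.log (N : ℝ)) ^ ((i : ℝ) + 1 - κ) /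
      ((i : ℝ) + 1 - κ) -
      (Real.log ((y2 : ℝ) + 1)) ^ ((i : ℝ) + 1 - κ) / ((i : ℝ) + 1 - κ) /
        (Real.log (N : ℝ)) ^ ((i : ℝ) + 1 - κ))
  have hq : Tendsto q atTop (𝓝 P) := by
    rw [hP]
    apply tendsto_finsetSum
    intro i _
    have hi0 : (0 : ℝ) ≤ i := Nat.cast_nonneg i
    have hs : 0 < (i : ℝ) + 1 - κ := by linarith
    have t1 : Tendsto (fun N : ℕ =>
        (1 / 2 - Real.log (Real.log (N : ℝ)) / Real.log (N : ℝ)) ^ ((i : ℝ) + 1 - κ) /
          ((i : ℝ) + 1 - κ)) atTop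
        (𝓝 ((1 / 2 - 0) ^ ((i : ℝ) + 1 - κ) / ((i : ℝ) + 1 - κ))) := by
      apply Tendsto.div_const
      exact (tendsto_loglog.const_sub (1 / 2)).rpow_const (Or.inr hs.le)
    have t2 : Tendsto (fun N : ℕ =>
        (Real.log ((y2 : ℝ) + 1)) ^ ((i : ℝ) + 1 - κ) / ((i : ℝ) + 1 - κ) /
        (Real.log (N : ℝ)) ^ ((i : ℝ) + 1 - κ)) atTop (𝓝 0) :=
      ((tendsto_rpow_atTop hs).comp tendsto_logN).const_div_atTop _
    have t3 := t1.sub t2
    simpa using t3
  have hqe : ∀ᶠ N in atTop, (1 - ε) * P ≤ q N := by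
    rcases Nat.eq_zero_or_pos I with hI | hI
    · filter_upwards with N
      simp [hP, q, hI]
    · have hPpos : 0 < P := by
        rw [hP]
        apply Finset.sum_pos
        · intro i _
          have hi0 : (0 : ℝ) ≤ i := Nat.cast_nonneg i
          have hs : 0 < (i : ℝ) + 1 - κ := by linarith
          positivity
        · exact ⟨0, Finset.mem_range.2 hI⟩
      have : (1 - ε) * P < P := by nlinarith
      filter_upwards [hq.eventually (lt_mem_nhds this)] with N hN
      exact hN.le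
  have hlog := tendsto_logN
  -- `zz N → ∞`
  have hzz : ∀ᶠ N : ℕ in atTop, y2 ≤ zz N := by
    have h1 : Tendsto (fun x : ℝ => Real.log x / x ^ (1 / 2 : ℝ)) atTop (𝓝 0) := by
      have := (isLittleO_log_rpow_atTop (by norm_num : (0 : ℝ) < 1 / 2)).tendsto_div_nhds_zero
      exact this
    have h2 := h1.comp tendsto_natCast_atTop_atTop (α := ℕ)
    have h3 : (0 : ℝ) < 1 / ((y2 : ℝ) + 1) := by positivity
    filter_upwards [h2.eventually (gt_mem_nhds h3), hlog.eventually_gt_atTop 0,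
      eventually_gt_atTop 0] with N hN hl hN0
    have hN0' : (0 : ℝ) < N := Nat.cast_pos.2 hN0
    simp only [Function.comp] at hN
    rw [← Real.sqrt_eq_rpow] at hN
    unfold zz
    apply Nat.le_floor
    have hsq : 0 < √(N : ℝ) := Real.sqrt_pos.2 hN0'
    rw [div_lt_div_iff₀ hsq (by positivity)] at hN
    rw [le_div_iff₀ hl]
    nlinarith
  have hlog1 := hlog.eventually_ge_atTop 1
  have hllh : ∀ᶠ N : ℕ in atTop, Real.log (Real.log (N : ℝ)) / Real.log (N : ℝ) < 1 / 2 :=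
    tendsto_loglog.eventually (gt_mem_nhds (by norm_num))
  obtain ⟨N1, hN1⟩ := eventually_atTop.1
    (hqe.and (hzz.and (hlog1.and (hllh.and (eventually_gt_atTop 1)))))
  refine ⟨N1, fun N hN => ?_⟩
  obtain ⟨hqN, hzN, hlN, hllN, hN1'⟩ := hN1 N hN
  have hNr : (1 : ℝ) < N := by exact_mod_cast hN1'
  have hN0 : (0 : ℝ) < N := by linarith
  set L := Real.log (N : ℝ) with hLdef
  have hL0 : 0 < L := by linarith
  set z := zz N with hz
  have hzlt : (z : ℝ) < N := by
    have h1 : (z : ℝ) ≤ √(N : ℝ) / L := by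
      rw [hz]
      exact Nat.floor_le (by positivity)
    have h2 : √(N : ℝ) / L ≤ √(N : ℝ) := div_le_self (Real.sqrt_nonneg _) hlN
    have h3 : √(N : ℝ) < N := by
      rw [Real.sqrt_lt' hN0]
      nlinarith
    linarith
  have hz1 : √(N : ℝ) / L ≤ (z : ℝ) + 1 := by
    rw [hz]
    exact (Nat.lt_floor_add_one _).le
  -- nonnegativity of the terms
  have hnn : ∀ y ∈ Ioc y1 z, 0 ≤ 1 / ((y : ℝ) * (Real.log y) ^ κ * Real.log ((N : ℝ) / y)) := by
    intro y hy
    rw [mem_Ioc] at hy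
    have hy1 : (1 : ℝ) ≤ y := by exact_mod_cast (by omega : 1 ≤ y)
    have hyz : (y : ℝ) ≤ z := by exact_mod_cast hy.2
    have h1 : 0 ≤ Real.log y := Real.log_nonneg hy1
    have h2 : 0 ≤ Real.log ((N : ℝ) / y) := by
      apply Real.log_nonneg
      rw [le_div_iff₀ (by linarith)]
      linarith
    positivity
  rw [div_le_iff₀ (by positivity)]
  refine hqN.trans ?_
  have hsub : ∑ y ∈ Ioc y2 z, 1 / ((y : ℝ) * (Real.log y) ^ κ * Real.log ((N : ℝ) / y)) ≤
      ∑ y ∈ Ioc y1 z, 1 / ((y : ℝ) * (Real.log y) ^ κ * Real.log ((N : ℝ) / y)) := by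
    apply Finset.sum_le_sum_of_subset_of_nonneg
    · exact Finset.Ioc_subset_Ioc_left hy21
    · intro y hy _
      exact hnn y hy
  refine le_trans ?_ (mul_le_mul_of_nonneg_right hsub (by positivity))
  -- the termwise estimate
  have hterm : ∀ y ∈ Ioc y2 z, ∑ i ∈ range I, (1 / L ^ (i + 1)) *
      ((Real.log (((y + 1 : ℕ) : ℝ))) ^ ((i : ℝ) + 1 - κ) / ((i : ℝ) + 1 - κ) -
        (Real.log y) ^ ((i : ℝ) + 1 - κ) / ((i : ℝ) + 1 - κ)) ≤
      1 / ((y : ℝ) * (Real.log y) ^ κ * Real.log ((N : ℝ) / y)) := by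
    intro y hy
    rw [mem_Ioc] at hy
    have hy2' : (y2 : ℝ) + 1 ≤ y := by exact_mod_cast hy.1
    have hyz : (y : ℝ) ≤ z := by exact_mod_cast hy.2
    have hexp1 : (1 : ℝ) ≤ Real.exp I := Real.one_le_exp (Nat.cast_nonneg I)
    have hy1 : (1 : ℝ) < y := by linarith
    have hy0 : (0 : ℝ) < y := by linarith
    have hl0 : 0 < Real.log y := Real.log_pos hy1
    have hlL : Real.log y < L := Real.log_lt_log hy0 (by linarith)
    have hdiv : Real.log ((N : ℝ) / y) = L - Real.log y := by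
      rw [Real.log_div hN0.ne' hy0.ne']
    rw [hdiv]
    have hg := geo L (Real.log y) hL0 hl0.le hlL I
    have hsum : ∑ i ∈ range I, (1 / L ^ (i + 1)) *
      ((Real.log (((y + 1 : ℕ) : ℝ))) ^ ((i : ℝ) + 1 - κ) / ((i : ℝ) + 1 - κ) -
        (Real.log y) ^ ((i : ℝ) + 1 - κ) / ((i : ℝ) + 1 - κ)) ≤
        ∑ i ∈ range I, ((Real.log y) ^ i / L ^ (i + 1)) * (1 / ((y : ℝ) * (Real.log y) ^ κ)) := by
      apply Finset.sum_le_sum
      intro i hi
      rw [Finset.mem_range] at hi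
      have hst := step κ hκ0 hκ1 i I hi (y : ℝ) (by linarith)
      have e1 : ((y + 1 : ℕ) : ℝ) = (y : ℝ) + 1 := by push_cast; ring
      rw [e1]
      refine (mul_le_mul_of_nonneg_left hst (by positivity)).trans (le_of_eq ?_)
      rw [Real.rpow_sub hl0, Real.rpow_natCast]
      field_simp
    refine hsum.trans ?_
    rw [← Finset.sum_mul]
    refine (mul_le_mul_of_nonneg_right hg (by positivity)).trans (le_of_eq ?_)
    have : L - Real.log y ≠ 0 := by linarith
    field_simp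
  have hsum2 := Finset.sum_le_sum hterm
  refine le_trans ?_ (mul_le_mul_of_nonneg_right hsum2 (by positivity))
  rw [Finset.sum_comm, Finset.sum_mul]
  apply Finset.sum_le_sum
  intro i hi
  rw [Finset.mem_range] at hi
  rw [← Finset.mul_sum, tele (fun y : ℕ => (Real.log (y : ℝ)) ^ ((i : ℝ) + 1 - κ) /
    ((i : ℝ) + 1 - κ)) y2 z hzN]
  have hi0 : (0 : ℝ) ≤ i := Nat.cast_nonneg i
  set s : ℝ := (i : ℝ) + 1 - κ with hs
  have hs0 : 0 < s := by rw [hs]; linarith
  have hpow : (1 / L ^ (i + 1)) * L ^ κ = 1 / L ^ s := by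
    rw [hs, Real.rpow_sub hL0, show ((i : ℝ) + 1) = ((i + 1 : ℕ) : ℝ) by push_cast; ring,
      Real.rpow_natCast]
    field_simp
  have hcomm : 1 / L ^ (i + 1) * ((Real.log ((z + 1 : ℕ) : ℝ)) ^ s / s -
      (Real.log ((y2 + 1 : ℕ) : ℝ)) ^ s / s) * L ^ κ =
      (Real.log ((z + 1 : ℕ) : ℝ)) ^ s / L ^ s / s - (Real.log ((y2 + 1 : ℕ) : ℝ)) ^ s / s / L ^ s := by
    calc 1 / L ^ (i + 1) * ((Real.log ((z + 1 : ℕ) : ℝ)) ^ s / s -
      (Real.log ((y2 + 1 : ℕ) : ℝ)) ^ s / s) * L ^ κ =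
        ((1 / L ^ (i + 1)) * L ^ κ) * ((Real.log ((z + 1 : ℕ) : ℝ)) ^ s / s -
      (Real.log ((y2 + 1 : ℕ) : ℝ)) ^ s / s) := by ring
      _ = _ := by
        rw [hpow]
        have : 0 < L ^ s := Real.rpow_pos_of_pos hL0 s
        field_simp
  rw [hcomm]
  have e2 : ((y2 + 1 : ℕ) : ℝ) = (y2 : ℝ) + 1 := by push_cast; ring
  rw [e2]
  apply sub_le_sub_right
  apply div_le_div_of_nonneg_right _ hs0.le
  rw [← Real.div_rpow _ hL0.le]
  · apply Real.rpow_le_rpow
    · linarith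
    · rw [le_div_iff₀ hL0]
      have e3 : Real.log (√(N : ℝ) / L) ≤ Real.log ((z + 1 : ℕ) : ℝ) := by
        apply Real.log_le_log
        · have := Real.sqrt_pos.2 hN0
          positivity
        · push_cast
          exact hz1
      rw [Real.log_div (Real.sqrt_pos.2 hN0).ne' hL0.ne', Real.log_sqrt hN0.le] at e3
      have e4 : (1 / 2 - Real.log L / L) * L = L / 2 - Real.log L := by
        field_simp
      rw [e4]
      exact e3
    · exact hs0.le
  · apply Real.log_nonneg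
    push_cast
    have : (0 : ℝ) ≤ z := Nat.cast_nonneg z
    linarith

end Pool.Agent.Q166.MM
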